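import Mathlib

/-!
The incidence graph of the Moebius-Kantor configuration has injective homomorphisms into the
incidence graph of PG(2,p) for all primes p congruent to 1 modulo 3, but for no prime p congruent
to 2 modulo 3. Hence the sequence of log_p inj(H, G_p) does not converge.
-/

open Configuration Filter Matrix

namespace Pool.Agent.Results.MP_5e7574_co.MoebiusKantor

/-- A bipartite graph with labelled vertex classes. -/
structure BipGraph where
  /-- first class -/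
  V₁ : Type
  /-- second class -/
  V₂ : Type
  /-- the edges -/
  E : V₁ → V₂ → Prop

/-- The number of label-preserving homomorphisms from `H` to `G` that are injective
on vertices. -/
noncomputable def inj (H G : BipGraph) : ℕ :=
  Nat.card {f : (H.V₁ → G.V₁) × (H.V₂ → G.V₂) // Function.Injective f.1 ∧
    Function.Injective f.2 ∧ ∀ x y, H.E x y → G.E (f.1 x) (f.2 y)}

/-- The point-line incidence graph of the Desarguesian projective plane over `ZMod p`. Points
and lines are both given by homogeneous coordinates; a point is on a line iff the dot product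
of the coordinate vectors vanishes. -/
noncomputable def planeGraph (p : ℕ) [Fact p.Prime] : BipGraph where
  V₁ := Projectivization (ZMod p) (Fin 3 → ZMod p)
  V₂ := Projectivization (ZMod p) (Fin 3 → ZMod p)
  E := fun x l => Projectivization.orthogonal x l

/-- `log_p n` with the convention `log_p 0 = -∞`. -/
noncomputable def logp (p n : ℕ) : EReal :=
  if n = 0 then ⊥ else ((Real.log n / Real.log p : ℝ) : EReal)

/-- The sequence `log_p inj(H, G_p)`, the `k`-th term being that of the `k`-th prime `p`. -/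
noncomputable def seq (H : BipGraph) (k : ℕ) : EReal :=
  letI : Fact (Nat.nth Nat.Prime k).Prime := ⟨Nat.prime_nth_prime k⟩
  logp (Nat.nth Nat.Prime k) (inj H (planeGraph (Nat.nth Nat.Prime k)))

/-- The incidence graph of the Moebius-Kantor configuration. -/
def mk : BipGraph where
  V₁ := Fin 8
  V₂ := Fin 8
  E := fun i j => i = j ∨ i = j + 1 ∨ i = j + 3

section necessary

variable {K : Type*} [Field K]

lemma det_zero (u v w l : Fin 3 → K) (hl : l ≠ 0) (h1 : u ⬝ᵥ l = 0) (h2 : v ⬝ᵥ l = 0)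
    (h3 : w ⬝ᵥ l = 0) (a b c : Fin 3 → K) :
    (!![u ⬝ᵥ a, u ⬝ᵥ b, u ⬝ᵥ c; v ⬝ᵥ a, v ⬝ᵥ b, v ⬝ᵥ c; w ⬝ᵥ a, w ⬝ᵥ b, w ⬝ᵥ c] :
      Matrix (Fin 3) (Fin 3) K).det = 0 := by
  have e : (!![u ⬝ᵥ a, u ⬝ᵥ b, u ⬝ᵥ c; v ⬝ᵥ a, v ⬝ᵥ b, v ⬝ᵥ c; w ⬝ᵥ a, w ⬝ᵥ b, w ⬝ᵥ c] :
      Matrix (Fin 3) (Fin 3) K) = (Matrix.of ![u, v, w]) * (Matrix.of ![a, b, c])ᵀ := by
    ext i j
    fin_cases i <;> fin_cases j <;> simp [Matrix.mul_apply, dotProduct]
  rw [e, Matrix.det_mul]
  have : (Matrix.of ![u, v, w]).det = 0 := by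
    by_contra hdet
    apply hl
    have := Matrix.eq_zero_of_mulVec_eq_zero hdet (v := l) (by
      ext i
      fin_cases i <;> simp [Matrix.mulVec, h1, h2, h3])
    exact this
  rw [this, zero_mul]

lemma root_of_config (P l : Fin 8 → (Fin 3 → K)) (hl : ∀ j, l j ≠ 0)
    (hsep : ∀ i i' j j', i ≠ i' → j ≠ j' → P i ⬝ᵥ l j = 0 → P i' ⬝ᵥ l j = 0 →
      P i ⬝ᵥ l j' = 0 → P i' ⬝ᵥ l j' = 0 → False)
    (hinc : ∀ i j, mk.E i j → P i ⬝ᵥ l j = 0) : ∃ t : K, t ^ 2 - t + 1 = 0 := by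
  have H : ∀ i j : Fin 8, (i = j ∨ i = j + 1 ∨ i = j + 3) → P i ⬝ᵥ l j = 0 := hinc
  -- coordinates with respect to the lines 1, 7, 0
  have i00 := H 0 0 (by decide)
  have i10 := H 1 0 (by decide)
  have i30 := H 3 0 (by decide)
  have i11 := H 1 1 (by decide)
  have i21 := H 2 1 (by decide)
  have i41 := H 4 1 (by decide)
  have i22 := H 2 2 (by decide)
  have i32 := H 3 2 (by decide)
  have i52 := H 5 2 (by decide)
  have i33 := H 3 3 (by decide)
  have i43 := H 4 3 (by decide)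
  have i63 := H 6 3 (by decide)
  have i44 := H 4 4 (by decide)
  have i54 := H 5 4 (by decide)
  have i74 := H 7 4 (by decide)
  have i55 := H 5 5 (by decide)
  have i65 := H 6 5 (by decide)
  have i05 := H 0 5 (by decide)
  have i66 := H 6 6 (by decide)
  have i76 := H 7 6 (by decide)
  have i16 := H 1 6 (by decide)
  have i77 := H 7 7 (by decide)
  have i07 := H 0 7 (by decide)
  have i27 := H 2 7 (by decide)
  -- non-incidences
  have n01 : P 0 ⬝ᵥ l 1 ≠ 0 := fun h =>
    hsep 0 1 0 1 (by decide) (by decide) i00 i10 h i11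
  have n17 : P 1 ⬝ᵥ l 7 ≠ 0 := fun h =>
    hsep 1 0 0 7 (by decide) (by decide) i10 i00 h i07
  have n20 : P 2 ⬝ᵥ l 0 ≠ 0 := fun h =>
    hsep 2 1 1 0 (by decide) (by decide) i21 i11 h i10
  have n51 : P 5 ⬝ᵥ l 1 ≠ 0 := fun h =>
    hsep 5 2 2 1 (by decide) (by decide) i52 i22 h i21
  have n57 : P 5 ⬝ᵥ l 7 ≠ 0 := fun h =>
    hsep 5 0 5 7 (by decide) (by decide) i55 i05 h i07
  have n50 : P 5 ⬝ᵥ l 0 ≠ 0 := fun h =>
    hsep 5 0 5 0 (by decide) (by decide) i55 i05 h i00
  have n31 : P 3 ⬝ᵥ l 1 ≠ 0 := fun h =>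
    hsep 3 1 0 1 (by decide) (by decide) i30 i10 h i11
  have n71 : P 7 ⬝ᵥ l 1 ≠ 0 := fun h =>
    hsep 7 2 7 1 (by decide) (by decide) i77 i27 h i21
  have n47 : P 4 ⬝ᵥ l 7 ≠ 0 := fun h =>
    hsep 4 2 1 7 (by decide) (by decide) i41 i21 h i27
  have n67 : P 6 ⬝ᵥ l 7 ≠ 0 := fun h =>
    hsep 6 0 5 7 (by decide) (by decide) i65 i05 h i07
  -- determinants
  have d2 := det_zero (P 2) (P 3) (P 5) (l 2) (hl 2) i22 i32 i52 (l 1) (l 7) (l 0)
  have d5 := det_zero (P 5) (P 6) (P 0) (l 5) (hl 5) i55 i65 i05 (l 1) (l 7) (l 0)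
  have d6 := det_zero (P 6) (P 7) (P 1) (l 6) (hl 6) i66 i76 i16 (l 1) (l 7) (l 0)
  have d4 := det_zero (P 4) (P 5) (P 7) (l 4) (hl 4) i44 i54 i74 (l 1) (l 7) (l 0)
  have d3 := det_zero (P 3) (P 4) (P 6) (l 3) (hl 3) i33 i43 i63 (l 1) (l 7) (l 0)
  rw [Matrix.det_fin_three] at d2 d3 d4 d5 d6
  simp only [Matrix.of_apply, Matrix.cons_val', Matrix.cons_val_zero, Matrix.cons_val_one,
    Matrix.cons_val, i00, i10, i30, i11, i21, i41, i77, i07, i27] at d2 d3 d4 d5 d6
  generalize P 0 ⬝ᵥ l 1 = X0 at *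
  generalize P 1 ⬝ᵥ l 7 = Y1 at *
  generalize P 2 ⬝ᵥ l 0 = Z2 at *
  generalize P 5 ⬝ᵥ l 1 = X5 at *
  generalize P 5 ⬝ᵥ l 7 = Y5 at *
  generalize P 5 ⬝ᵥ l 0 = Z5 at *
  generalize P 3 ⬝ᵥ l 1 = X3 at *
  generalize P 3 ⬝ᵥ l 7 = Y3 at *
  generalize P 7 ⬝ᵥ l 1 = X7 at *
  generalize P 7 ⬝ᵥ l 0 = Z7 at *
  generalize P 4 ⬝ᵥ l 7 = Y4 at *
  generalize P 4 ⬝ᵥ l 0 = Z4 at *
  generalize P 6 ⬝ᵥ l 1 = X6 at *
  generalize P 6 ⬝ᵥ l 7 = Y6 at *
  generalize P 6 ⬝ᵥ l 0 = Z6 at *
  have e2 : X3 * Y5 = Y3 * X5 := by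
    have : Z2 * (X3 * Y5 - Y3 * X5) = 0 := by linear_combination d2
    have := (mul_eq_zero.mp this).resolve_left n20
    linear_combination this
  have e5 : Y5 * Z6 = Z5 * Y6 := by
    have : X0 * (Y5 * Z6 - Z5 * Y6) = 0 := by linear_combination d5
    have := (mul_eq_zero.mp this).resolve_left n01
    linear_combination this
  have e6 : X6 * Z7 = Z6 * X7 := by
    have : Y1 * (X6 * Z7 - Z6 * X7) = 0 := by linear_combination -d6
    have := (mul_eq_zero.mp this).resolve_left n17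
    linear_combination this
  -- normalised variables
  refine ⟨(Z7 / Z5) / (X7 / X5), ?_⟩
  have hZ7 : Z7 ≠ 0 := by
    intro h
    rw [h, mul_zero] at e6
    have hZ6 : Z6 ≠ 0 := by
      intro h'
      rw [h', mul_zero] at e5
      exact (mul_ne_zero n50 n67) e5.symm
    exact (mul_ne_zero hZ6 n71) e6.symm
  have e4 : Y4 * (Z5 * X7 - X5 * Z7) = Z4 * Y5 * X7 := by linear_combination d4
  have e3 : X3 * (Y4 * Z6 - Z4 * Y6) + Y3 * Z4 * X6 = 0 := by linear_combination d3
  have hY3 : Y3 = X3 * Y5 / X5 := by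
    rw [eq_div_iff n51]; linear_combination -e2
  have hZ6 : Z6 = Z5 * Y6 / Y5 := by
    rw [eq_div_iff n57]; linear_combination e5
  have hX6 : X6 = Z6 * X7 / Z7 := by
    rw [eq_div_iff hZ7]; linear_combination e6
  have hZ4 : Z4 = Y4 * (Z5 * X7 - X5 * Z7) / (Y5 * X7) := by
    rw [eq_div_iff (mul_ne_zero n57 n71)]; linear_combination -e4
  have key : (X3 * Y4 * Y6) * (X5 ^ 2 * Z7 ^ 2 - X5 * Z7 * Z5 * X7 + Z5 ^ 2 * X7 ^ 2) = 0 := by
    have : (X3 * Y4 * Y6) * (X5 ^ 2 * Z7 ^ 2 - X5 * Z7 * Z5 * X7 + Z5 ^ 2 * X7 ^ 2) =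
        (X3 * (Y4 * Z6 - Z4 * Y6) + Y3 * Z4 * X6) * (Y5 * X5 * Z7 * X7) := by
      rw [hX6, hZ4, hZ6, hY3]
      field_simp
      ring
    rw [this, e3, zero_mul]
  have key2 := (mul_eq_zero.mp key).resolve_left (mul_ne_zero (mul_ne_zero n31 n47) n67)
  field_simp
  linear_combination key2

end necessary

/-- If `t ^ 2 - t + 1 = 0` has a root modulo the prime `p`, then `p` is not `2` modulo `3`. -/
lemma no_root (p : ℕ) [Fact p.Prime] (hp : p % 3 = 2) (t : ZMod p) (ht : t ^ 2 - t + 1 = 0) :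
    False := by
  have ht3 : (-t) ^ 3 = 1 := by linear_combination (-t - 1) * ht
  have hne : -t ≠ 1 := by
    intro h
    have h3 : (3 : ZMod p) = 0 := by
      have : t = -1 := by linear_combination -h
      rw [this] at ht
      linear_combination ht
    have h4 : ((3 : ℕ) : ZMod p) = 0 := by exact_mod_cast h3
    rw [ZMod.natCast_eq_zero_iff] at h4
    have := (Nat.prime_dvd_prime_iff_eq (Fact.out : p.Prime) Nat.prime_three).mp h4
    omega
  have hord : orderOf (-t) = 3 := orderOf_eq_prime ht3 hne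
  have ht0 : -t ≠ 0 := by
    intro h
    rw [h] at ht3
    norm_num at ht3
  have hdvd : orderOf (-t) ∣ p - 1 := orderOf_dvd_of_pow_eq_one (ZMod.pow_card_sub_one_eq_one ht0)
  rw [hord] at hdvd
  have := (Fact.out : p.Prime).two_le
  omega

lemma exists_root (p : ℕ) [Fact p.Prime] (hp : p % 3 = 1) : ∃ t : ZMod p, t ^ 2 - t + 1 = 0 := by
  have h3 : Fact (Nat.Prime 3) := ⟨Nat.prime_three⟩
  have hdvd : 3 ∣ Fintype.card (ZMod p)ˣ := by
    rw [ZMod.card_units]
    omega
  obtain ⟨g, hg⟩ := exists_prime_orderOf_dvd_card 3 hdvd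
  have h1 : g ^ 3 = 1 := by rw [← hg]; exact pow_orderOf_eq_one g
  have h2 : g ≠ 1 := by
    intro h
    rw [h, orderOf_one] at hg
    norm_num at hg
  have h1' : (g : ZMod p) ^ 3 = 1 := by
    have := congrArg (fun u : (ZMod p)ˣ => (u : ZMod p)) h1
    simpa using this
  have h2' : (g : ZMod p) - 1 ≠ 0 := by
    intro h
    apply h2
    ext
    simpa using sub_eq_zero.mp h
  refine ⟨-(g : ZMod p), ?_⟩
  have : ((g : ZMod p) - 1) * ((-(g : ZMod p)) ^ 2 - -(g : ZMod p) + 1) = 0 := by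
    linear_combination h1'
  exact (mul_eq_zero.mp this).resolve_left h2'

instance (p : ℕ) [Fact p.Prime] : Finite (Projectivization (ZMod p) (Fin 3 → ZMod p)) :=
  inferInstance

theorem inj_eq_zero (p : ℕ) [Fact p.Prime] (hp : p % 3 = 2) : inj mk (planeGraph p) = 0 := by
  rw [inj, Nat.card_eq_zero]
  left
  refine ⟨?_⟩
  rintro ⟨⟨f1, f2⟩, h1, h2, h3⟩
  change Fin 8 → Projectivization (ZMod p) (Fin 3 → ZMod p) at f1
  change Fin 8 → Projectivization (ZMod p) (Fin 3 → ZMod p) at f2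
  have horth : ∀ x l : Projectivization (ZMod p) (Fin 3 → ZMod p),
      x.rep ⬝ᵥ l.rep = 0 ↔ Projectivization.orthogonal x l := by
    intro x l
    conv_rhs => rw [← Projectivization.mk_rep x, ← Projectivization.mk_rep l]
    exact (Projectivization.orthogonal_mk _ _).symm
  obtain ⟨t, ht⟩ := root_of_config (fun i => (f1 i).rep) (fun j => (f2 j).rep)
    (fun j => (f2 j).rep_nonzero) (by
      intro i i' j j' hi hj a1 a2 a3 a4
      rw [horth] at a1 a2 a3 a4
      rcases ofField.eq_or_eq_of_orthogonal a1 a2 a3 a4 with h | h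
      · exact hi (h1 h)
      · exact hj (h2 h)) (by
      intro i j hij
      rw [horth]
      exact h3 i j hij)
  exact no_root p hp t ht

section realisation

variable {K : Type*} [Field K]

/-- The points of the realisation. -/
def pts (t : K) : Fin 8 → (Fin 3 → K) :=
  ![![1, 0, 0], ![0, 1, 0], ![0, 0, 1], ![1, 1, 0], ![0, 1, 1 - t], ![1, 1, 1], ![1 - t, 1, 1],
    ![1, 0, t]]

/-- The lines of the realisation. -/
def lns (t : K) : Fin 8 → (Fin 3 → K) :=
  ![![0, 0, 1], ![1, 0, 0], ![1, -1, 0], ![1 - t, t - 1, 1], ![t, 1 - t, -1], ![0, 1, -1],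
    ![t, 0, -1], ![0, 1, 0]]

lemma pts_ne (t : K) (i : Fin 8) : pts t i ≠ 0 := by
  intro h
  have h0 := congrFun h 0
  have h1 := congrFun h 1
  have h2 := congrFun h 2
  fin_cases i <;> simp [pts] at h0 h1 h2

lemma lns_ne (t : K) (i : Fin 8) : lns t i ≠ 0 := by
  intro h
  have h0 := congrFun h 0
  have h1 := congrFun h 1
  have h2 := congrFun h 2
  fin_cases i <;> simp [lns] at h0 h1 h2

lemma pts_inj (t : K) (h0 : t ≠ 0) (h1 : 1 - t ≠ 0) (i j : Fin 8)
    (h : crossProduct (pts t i) (pts t j) = 0) : i = j := by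
  have a0 := congrFun h 0
  have a1 := congrFun h 1
  have a2 := congrFun h 2
  have h1' : t - 1 ≠ 0 := fun h => h1 (by linear_combination -h)
  fin_cases i <;> fin_cases j <;> first
    | rfl
    | (exfalso; simp [pts, crossProduct, h0, h1, h1'] at a0 a1 a2)

lemma lns_inj (t : K) (h0 : t ≠ 0) (h1 : 1 - t ≠ 0) (i j : Fin 8)
    (h : crossProduct (lns t i) (lns t j) = 0) : i = j := by
  have a0 := congrFun h 0
  have a1 := congrFun h 1
  have a2 := congrFun h 2
  have h1' : t - 1 ≠ 0 := fun h => h1 (by linear_combination -h)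
  fin_cases i <;> fin_cases j <;> first
    | rfl
    | (exfalso; simp [lns, crossProduct, h0, h1, h1'] at a0 a1 a2)

lemma incid (t : K) (ht : t ^ 2 - t + 1 = 0) (i j : Fin 8) (h : i = j ∨ i = j + 1 ∨ i = j + 3) :
    pts t i ⬝ᵥ lns t j = 0 := by
  fin_cases i <;> fin_cases j <;> first
    | (exfalso; revert h; decide)
    | (simp [pts, lns, dotProduct, Fin.sum_univ_three]; done)
    | (simp only [pts, lns, dotProduct, Fin.sum_univ_three]; simp; ring1)
    | (simp only [pts, lns, dotProduct, Fin.sum_univ_three]; simp; linear_combination ht)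
    | (simp only [pts, lns, dotProduct, Fin.sum_univ_three]; simp; linear_combination -ht)

end realisation

theorem inj_pos (p : ℕ) [Fact p.Prime] (hp : p % 3 = 1) : 0 < inj mk (planeGraph p) := by
  obtain ⟨t, ht⟩ := exists_root p hp
  have h0 : t ≠ 0 := by
    intro h
    rw [h] at ht
    norm_num at ht
  have h1 : 1 - t ≠ 0 := by
    intro h
    have : t = 1 := by linear_combination -h
    rw [this] at ht
    norm_num at ht
  rw [inj]
  have hfin : Finite (Projectivization (ZMod p) (Fin 3 → ZMod p)) := inferInstance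
  have hfin1 : Finite (mk.V₁ → (planeGraph p).V₁) :=
    inferInstanceAs (Finite (Fin 8 → Projectivization (ZMod p) (Fin 3 → ZMod p)))
  have hfin2 : Finite (mk.V₂ → (planeGraph p).V₂) :=
    inferInstanceAs (Finite (Fin 8 → Projectivization (ZMod p) (Fin 3 → ZMod p)))
  rw [Nat.card_pos_iff]
  refine ⟨⟨⟨(fun i => Projectivization.mk (ZMod p) (pts t i) (pts_ne t i),
    fun j => Projectivization.mk (ZMod p) (lns t j) (lns_ne t j)), ?_, ?_, ?_⟩⟩, inferInstance⟩
  · intro i j hij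
    exact pts_inj t h0 h1 i j
      ((Projectivization.mk_eq_mk_iff_crossProduct_eq_zero (pts_ne t i) (pts_ne t j)).mp hij)
  · intro i j hij
    exact lns_inj t h0 h1 i j
      ((Projectivization.mk_eq_mk_iff_crossProduct_eq_zero (lns_ne t i) (lns_ne t j)).mp hij)
  · intro i j hij
    exact (Projectivization.orthogonal_mk (pts_ne t i) (lns_ne t j)).mpr (incid t ht i j hij)

/-- A property of primes holding for infinitely many primes holds frequently along the
sequence of primes. -/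
lemma frequently_nth (r : ℕ) (hr : r.Coprime 3) :
    ∃ᶠ k in atTop, Nat.nth Nat.Prime k ≡ r [MOD 3] := by
  rw [frequently_atTop]
  intro N
  obtain ⟨p, hp1, hp2, hp3⟩ := Nat.forall_exists_prime_gt_and_modEq (Nat.nth Nat.Prime N)
    (by norm_num : (3 : ℕ) ≠ 0) hr
  refine ⟨Nat.count Nat.Prime p, ?_, ?_⟩
  · by_contra hcon
    push Not at hcon
    have h1 : Nat.nth Nat.Prime (Nat.count Nat.Prime p) < Nat.nth Nat.Prime N :=
      Nat.nth_strictMono Nat.infinite_setOfPred_prime hcon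
    rw [Nat.nth_count hp2] at h1
    omega
  · rw [Nat.nth_count hp2]
    exact hp3

/-- **The sequence `log_p inj(H, G_p)` does not converge for the Moebius-Kantor graph `H`.** -/
theorem result : ∃ H : BipGraph, Finite H.V₁ ∧ Finite H.V₂ ∧ (∃ x y, H.E x y) ∧
    (∀ (p : ℕ) [Fact p.Prime], p % 3 = 2 → inj H (planeGraph p) = 0) ∧
    (∀ (p : ℕ) [Fact p.Prime], p % 3 = 1 → 0 < inj H (planeGraph p)) ∧
    liminf (seq H) atTop < limsup (seq H) atTop := by
  refine ⟨mk, inferInstanceAs (Finite (Fin 8)), inferInstanceAs (Finite (Fin 8)),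
    ⟨(0 : Fin 8), (0 : Fin 8), Or.inl rfl⟩, fun p _ hp => inj_eq_zero p hp,
    fun p _ hp => inj_pos p hp, ?_⟩
  have h1 : liminf (seq mk) atTop ≤ ⊥ := by
    apply liminf_le_of_frequently_le'
    refine (frequently_nth 2 (by norm_num)).mono ?_
    intro k hk
    have hF : Fact (Nat.nth Nat.Prime k).Prime := ⟨Nat.prime_nth_prime k⟩
    rw [seq, logp, inj_eq_zero (Nat.nth Nat.Prime k) (by simpa [Nat.ModEq] using hk), if_pos rfl]
  have h2 : (0 : EReal) ≤ limsup (seq mk) atTop := by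
    apply le_limsup_of_frequently_le'
    refine (frequently_nth 1 (by norm_num)).mono ?_
    intro k hk
    have hF : Fact (Nat.nth Nat.Prime k).Prime := ⟨Nat.prime_nth_prime k⟩
    have hpos := inj_pos (Nat.nth Nat.Prime k) (by simpa [Nat.ModEq] using hk)
    rw [seq, logp, if_neg hpos.ne']
    have hlog : (0 : ℝ) ≤ Real.log (inj mk (planeGraph (Nat.nth Nat.Prime k))) /
        Real.log (Nat.nth Nat.Prime k) := by
      apply div_nonneg
      · exact Real.log_natCast_nonneg _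
      · exact Real.log_natCast_nonneg _
    exact_mod_cast hlog
  refine lt_of_le_of_lt h1 (lt_of_lt_of_le ?_ h2)
  exact EReal.bot_lt_zero

end Pool.Agent.Results.MP_5e7574_co.MoebiusKantor
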